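import Mathlib

/-!
# MP_1a5975_nt, Q1: the numbers `a_n = S_n / (4n(2n+1)C(2n,n))`, `S_n = ∑_{k<n} (35k+8) M_k 81^(n-1-k)`

Write `n = m + 1`, `N = 2n+1 = 2m+3`, `t j = C(2j,j) C(3m+2+j, 2m+1)` and `U = ∑_{j ≤ m} t j 3^(m-j)`.

* WZ identity: `S_n = 2 n C(2n,n) U`, so `a_n = U / (2N)`.
* `N` divides `3 t j` for every `j` (from `(m+1+j)(m+j) C(3m+2+j, 2m+1) = (2m+3)(2m+2) C(3m+2+j, 2m+3)`
  and `j C(2j,j) = 2(2j-1) C(2j-2,j-1)`).  So `U ≡ t m = C(2m,m) C(4m+2,2m+1)` modulo `N` if `3 ∣ N`.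
* Kummer's theorem: for `N = 3^a q`, `a ≥ 1`, `3 ∤ q`, the number `3^a` divides `t m` if and only if `q ≠ 1`.
-/

set_option autoImplicit false

open Finset

namespace Pool.Agent.Results.MP_1a5975_nt.Integrality

/-- `M_k = (4k)!/(k!)^4` (as a rational number) -/
noncomputable def M (k : ℕ) : ℚ := ((4 * k).factorial : ℚ) / ((k.factorial : ℚ)) ^ 4

/-- `S_n = ∑_{k<n} (35k+8) M_k 81^(n-1-k)` -/
noncomputable def S (n : ℕ) : ℚ :=
  ∑ k ∈ range n, (35 * (k : ℚ) + 8) * M k * 81 ^ (n - 1 - k)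

/-- `a_n = S_n / (4n(2n+1)C(2n,n))` -/
noncomputable def a (n : ℕ) : ℚ := S n / (4 * n * (2 * n + 1) * ((2 * n).choose n : ℚ))

/-! ## the WZ identity -/

/-- `t m j = C(2j,j) C(3m+2+j, 2m+1)` -/
def t (m j : ℕ) : ℕ := Nat.centralBinom j * (3 * m + 2 + j).choose (2 * m + 1)

/-- `v m j = t m j / 3^j` -/
noncomputable def v (m j : ℕ) : ℚ := (t m j : ℚ) / 3 ^ j

lemma cb_succ (j : ℕ) : ((j : ℚ) + 1) * (Nat.centralBinom (j + 1) : ℚ)
    = 2 * (2 * j + 1) * (Nat.centralBinom j : ℚ) := by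
  have h := Nat.succ_mul_centralBinom_succ j
  exact_mod_cast h

lemma ch_j (m j : ℕ) : ((3 * m + 2 + (j + 1)).choose (2 * m + 1) : ℚ) * (m + 2 + j) =
    ((3 * m + 2 + j).choose (2 * m + 1) : ℚ) * (3 * m + 3 + j) := by
  have h := Nat.choose_mul_succ_eq (3 * m + 2 + j) (2 * m + 1)
  have e : 3 * m + 2 + j + 1 - (2 * m + 1) = m + 2 + j := by omega
  rw [e] at h
  have h' : ((3 * m + 2 + j).choose (2 * m + 1) * (3 * m + 2 + j + 1) : ℕ) =
    (3 * m + 2 + (j + 1)).choose (2 * m + 1) * (m + 2 + j) := h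
  have := congrArg (Nat.cast : ℕ → ℚ) h'
  push_cast at this
  linear_combination (-1) * this

lemma ch_m (m j : ℕ) : ((3 * (m + 1) + 2 + j).choose (2 * (m + 1) + 1) : ℚ) *
      ((2 * m + 3) * (2 * m + 2) * (m + 2 + j)) =
    ((3 * m + 2 + j).choose (2 * m + 1) : ℚ) * ((3 * m + 5 + j) * (3 * m + 4 + j) * (3 * m + 3 + j)) := by
  have h1 := Nat.add_one_mul_choose_eq (3 * m + 4 + j) (2 * m + 2)
  have h2 := Nat.add_one_mul_choose_eq (3 * m + 3 + j) (2 * m + 1)
  have h3 := ch_j m j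
  have e1 : 3 * (m + 1) + 2 + j = 3 * m + 4 + j + 1 := by ring
  have e2 : 2 * (m + 1) + 1 = 2 * m + 2 + 1 := by ring
  have e3 : 3 * m + 2 + (j + 1) = 3 * m + 3 + j := by ring
  rw [e1, e2]
  rw [e3] at h3
  have h1' := congrArg (Nat.cast : ℕ → ℚ) h1
  have h2' : ((3 * m + 3 + j + 1) * (3 * m + 3 + j).choose (2 * m + 1) : ℕ) =
    (3 * m + 4 + j).choose (2 * m + 2) * (2 * m + 1 + 1) := by
    have e4 : 3 * m + 3 + j + 1 = 3 * m + 4 + j := by ring
    rw [← e4]; exact h2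
  have h2'' := congrArg (Nat.cast : ℕ → ℚ) h2'
  push_cast at h1' h2''
  generalize ((3 * m + 4 + j + 1).choose (2 * m + 2 + 1) : ℚ) = X at *
  generalize ((3 * m + 4 + j).choose (2 * m + 2) : ℚ) = Y at *
  generalize ((3 * m + 3 + j).choose (2 * m + 1) : ℚ) = Z at *
  generalize ((3 * m + 2 + j).choose (2 * m + 1) : ℚ) = W at *
  linear_combination (-(2 * (m : ℚ) + 2) * (m + 2 + j)) * h1' - ((3 * (m : ℚ) + 5 + j) * (m + 2 + j)) * h2'' +
    (3 * (m : ℚ) + 5 + j) * (3 * m + 4 + j) * h3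

lemma v_j (m j : ℕ) : v m (j + 1) * (3 * (j + 1) * (m + 2 + j)) =
    2 * (2 * j + 1) * (3 * m + 3 + j) * v m j := by
  have h1 := ch_j m j
  have h2 := cb_succ j
  unfold v t
  push_cast
  rw [pow_succ]
  generalize ((3 * m + 2 + (j + 1)).choose (2 * m + 1) : ℚ) = X at *
  generalize ((3 * m + 2 + j).choose (2 * m + 1) : ℚ) = Y at *
  generalize (Nat.centralBinom (j + 1) : ℚ) = Z at *
  generalize (Nat.centralBinom j : ℚ) = W at *
  field_simp
  linear_combination ((j : ℚ) + 1) * Z * h1 + (3 * (m : ℚ) + 3 + j) * Y * h2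

lemma v_m (m j : ℕ) : v (m + 1) j * ((2 * m + 3) * (2 * m + 2) * (m + 2 + j)) =
    (3 * m + 5 + j) * (3 * m + 4 + j) * (3 * m + 3 + j) * v m j := by
  have h1 := ch_m m j
  unfold v t
  push_cast
  generalize ((3 * (m + 1) + 2 + j).choose (2 * (m + 1) + 1) : ℚ) = X at *
  generalize ((3 * m + 2 + j).choose (2 * m + 1) : ℚ) = Y at *
  generalize (Nat.centralBinom j : ℚ) = W at *
  field_simp
  linear_combination W * h1

/-- `K m = 2(m+1)C(2m+2,m+1)/27^m` -/
noncomputable def K (m : ℕ) : ℚ := 2 * (m + 1) * (Nat.centralBinom (m + 1) : ℚ) / 27 ^ m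

lemma K_succ (m : ℕ) : K (m + 1) * (27 * (m + 1)) = 2 * (2 * m + 3) * K m := by
  unfold K
  have h := cb_succ (m + 1)
  rw [pow_succ]
  push_cast at h ⊢
  field_simp
  linear_combination h

lemma wz_step (m j : ℕ) : K (m + 1) * v (m + 1) j - K m * v m j =
    ((j + 1 : ℕ) : ℚ) ^ 2 / (9 * (m + 1) ^ 2) * (K m * v m (j + 1)) -
      (j : ℚ) ^ 2 / (9 * (m + 1) ^ 2) * (K m * v m j) := by
  have h1 := v_j m j
  have h2 := v_m m j
  have h3 := K_succ m
  have q1 : (m : ℚ) + 1 ≠ 0 := by positivity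
  have q2 : (m : ℚ) + 2 + j ≠ 0 := by positivity
  have q3 : (j : ℚ) + 1 ≠ 0 := by positivity
  have q4 : (2 : ℚ) * m + 3 ≠ 0 := by positivity
  have q5 : (2 : ℚ) * m + 2 ≠ 0 := by positivity
  have e1 : v m (j + 1) = 2 * (2 * j + 1) * (3 * m + 3 + j) * v m j / (3 * (j + 1) * (m + 2 + j)) := by
    rw [eq_div_iff (by positivity)]; exact h1
  have e2 : v (m + 1) j = (3 * m + 5 + j) * (3 * m + 4 + j) * (3 * m + 3 + j) * v m j /
      ((2 * m + 3) * (2 * m + 2) * (m + 2 + j)) := by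
    rw [eq_div_iff (by positivity)]; exact h2
  have e3 : K (m + 1) = 2 * (2 * m + 3) * K m / (27 * (m + 1)) := by
    rw [eq_div_iff (by positivity)]; exact h3
  rw [e1, e2, e3]
  push_cast
  field_simp
  ring

lemma wz_sum (m J : ℕ) : ∑ j ∈ range J, (K (m + 1) * v (m + 1) j - K m * v m j) =
    (J : ℚ) ^ 2 / (9 * (m + 1) ^ 2) * (K m * v m J) := by
  induction J with
  | zero => simp
  | succ J ih =>
    rw [sum_range_succ, ih, wz_step]
    ring

lemma M_eq (n : ℕ) : M n = (Nat.centralBinom n : ℚ) ^ 2 * (Nat.centralBinom (2 * n) : ℚ) := by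
  unfold M
  rw [Nat.centralBinom_eq_two_mul_choose, Nat.centralBinom_eq_two_mul_choose,
    Nat.cast_choose ℚ (by omega : n ≤ 2 * n), Nat.cast_choose ℚ (by omega : 2 * n ≤ 2 * (2 * n))]
  have e1 : 2 * n - n = n := by omega
  have e2 : 2 * (2 * n) - 2 * n = 2 * n := by omega
  have e3 : 2 * (2 * n) = 4 * n := by ring
  rw [e1, e2, e3]
  have h1 : (n.factorial : ℚ) ≠ 0 := by positivity
  have h2 : ((2 * n).factorial : ℚ) ≠ 0 := by positivity
  field_simp

/-- `C(4m+3, 2m+1) = C(4m+4, 2m+2)/2` -/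
lemma half_choose (m : ℕ) : 2 * ((3 * m + 2 + (m + 1)).choose (2 * m + 1) : ℚ) =
    (Nat.centralBinom (2 * (m + 1)) : ℚ) := by
  have h1 := Nat.add_one_mul_choose_eq (4 * m + 3) (2 * m + 1)
  have h2 := congrArg (Nat.cast : ℕ → ℚ) h1
  rw [Nat.centralBinom_eq_two_mul_choose]
  have e1 : 3 * m + 2 + (m + 1) = 4 * m + 3 := by ring
  have e2 : 2 * (2 * (m + 1)) = 4 * m + 3 + 1 := by ring
  have e3 : 2 * (m + 1) = 2 * m + 1 + 1 := by ring
  rw [e1, e2, e3]
  push_cast at h2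
  have q : (2 : ℚ) * m + 2 ≠ 0 := by positivity
  apply mul_left_cancel₀ q
  linear_combination h2

lemma diag (m : ℕ) : K m * v m (m + 1) = 9 * (m + 1) * (M (m + 1) / 81 ^ (m + 1)) * 3 := by
  rw [M_eq]
  unfold K v t
  have h := half_choose m
  have e : (81 : ℚ) ^ (m + 1) = 81 * (27 ^ m * 3 ^ m) := by
    rw [pow_succ, ← mul_pow]; norm_num; ring
  rw [e, pow_succ (3 : ℚ) m]
  push_cast
  rw [← h]
  field_simp
  ring

theorem wz (m : ℕ) : ∑ k ∈ range (m + 1), (35 * (k : ℚ) + 8) * M k / 81 ^ k =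
    K m * ∑ j ∈ range (m + 1), v m j := by
  induction m with
  | zero =>
    have h0 : M 0 = 1 := by unfold M; simp
    simp [K, v, t, h0, Nat.centralBinom]
    norm_num [Nat.choose]
  | succ m ih =>
    rw [sum_range_succ, ih]
    have h := wz_sum m (m + 1)
    rw [sum_sub_distrib, ← mul_sum, ← mul_sum] at h
    rw [sum_range_succ _ (m + 1)]
    have hd := diag m
    have h2 := v_m m (m + 1)
    have h3 := K_succ m
    have q1 : (m : ℚ) + 1 ≠ 0 := by positivity
    have q4 : (2 : ℚ) * m + 3 ≠ 0 := by positivity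
    have q5 : (2 : ℚ) * m + 2 ≠ 0 := by positivity
    have q2 : (m : ℚ) + 2 + (m + 1) ≠ 0 := by positivity
    push_cast at h2 h
    have e2 : v (m + 1) (m + 1) = (3 * m + 5 + (m + 1)) * (3 * m + 4 + (m + 1)) * (3 * m + 3 + (m + 1)) * v m (m + 1) /
        ((2 * m + 3) * (2 * m + 2) * (m + 2 + (m + 1))) := by
      rw [eq_div_iff (by positivity)]; exact h2
    have e3 : K (m + 1) = 2 * (2 * m + 3) * K m / (27 * (m + 1)) := by
      rw [eq_div_iff (by positivity)]; exact h3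
    have e4 : K (m + 1) * v (m + 1) (m + 1) =
        (4 * m + 6) * (4 * m + 5) * (4 * m + 4) / (27 * (m + 1) ^ 2 * (2 * m + 3)) * (K m * v m (m + 1)) := by
      rw [e2, e3]
      have e5 : (m : ℚ) + 2 + (m + 1) = 2 * m + 3 := by ring
      rw [e5]
      field_simp
      ring
    have e6 : K (m + 1) * v (m + 1) (m + 1) = 8 * (4 * m + 5) * (M (m + 1) / 81 ^ (m + 1)) := by
      rw [e4, hd]
      field_simp
      ring
    have e7 : ((m : ℚ) + 1) ^ 2 / (9 * (m + 1) ^ 2) * (K m * v m (m + 1)) =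
        3 * (m + 1) * (M (m + 1) / 81 ^ (m + 1)) := by
      rw [hd]
      field_simp
    rw [e7] at h
    have e8 : (35 * ((m + 1 : ℕ) : ℚ) + 8) * M (m + 1) / 81 ^ (m + 1) =
        (35 * ((m : ℚ) + 1) + 8) * (M (m + 1) / 81 ^ (m + 1)) := by
      push_cast; ring
    rw [e8]
    linear_combination (-1) * h - e6

/-- `U m = ∑_{j ≤ m} t m j 3^(m-j)` -/
def U (m : ℕ) : ℕ := ∑ j ∈ range (m + 1), t m j * 3 ^ (m - j)

lemma S_eq (m : ℕ) : S (m + 1) = 2 * (m + 1) * (Nat.centralBinom (m + 1) : ℚ) * U m := by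
  have h1 : S (m + 1) = 81 ^ m * ∑ k ∈ range (m + 1), (35 * (k : ℚ) + 8) * M k / 81 ^ k := by
    unfold S
    rw [mul_sum]
    apply sum_congr rfl
    intro k hk
    have hk' : k ≤ m := by have := mem_range.mp hk; omega
    have e1 : m + 1 - 1 - k = m - k := by omega
    have e : (81 : ℚ) ^ m = 81 ^ (m - k) * 81 ^ k := by
      rw [← pow_add]; congr 1; omega
    rw [e, e1]
    field_simp
  have h2 : (U m : ℚ) = 3 ^ m * ∑ j ∈ range (m + 1), v m j := by
    unfold U
    push_cast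
    rw [mul_sum]
    apply sum_congr rfl
    intro j hj
    have hj' : j ≤ m := by have := mem_range.mp hj; omega
    have e : (3 : ℚ) ^ m = 3 ^ (m - j) * 3 ^ j := by
      rw [← pow_add]; congr 1; omega
    unfold v
    rw [e]
    field_simp
  rw [h1, wz, h2]
  unfold K
  have e : (81 : ℚ) ^ m = 27 ^ m * 3 ^ m := by rw [← mul_pow]; norm_num
  rw [e]
  field_simp

lemma a_eq (m : ℕ) : a (m + 1) = (U m : ℚ) / (2 * (2 * m + 3)) := by
  unfold a
  rw [S_eq, ← Nat.centralBinom_eq_two_mul_choose]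
  have hc : (Nat.centralBinom (m + 1) : ℚ) ≠ 0 := by
    have := (Nat.centralBinom_pos (m + 1)).ne'
    exact_mod_cast this
  have q1 : (m : ℚ) + 1 ≠ 0 := by positivity
  have q4 : (2 : ℚ) * m + 3 ≠ 0 := by positivity
  push_cast
  have e : 2 * ((m : ℚ) + 1) + 1 = 2 * m + 3 := by ring
  rw [e]
  field_simp
  ring

/-! ## divisibility by `N = 2m+3` up to a factor `3` -/

lemma ch_two (m j : ℕ) : (3 * m + 2 + j).choose (2 * m + 1) * ((m + 1 + j) * (m + j)) =
    (3 * m + 2 + j).choose (2 * m + 3) * ((2 * m + 3) * (2 * m + 2)) := by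
  have h1 := Nat.choose_succ_right_eq (3 * m + 2 + j) (2 * m + 1)
  have h2 := Nat.choose_succ_right_eq (3 * m + 2 + j) (2 * m + 2)
  have e1 : 3 * m + 2 + j - (2 * m + 1) = m + 1 + j := by omega
  have e2 : 3 * m + 2 + j - (2 * m + 2) = m + j := by omega
  rw [e1] at h1
  rw [e2] at h2
  have h1' : (3 * m + 2 + j).choose (2 * m + 2) * (2 * m + 2) =
    (3 * m + 2 + j).choose (2 * m + 1) * (m + 1 + j) := h1
  have h2' : (3 * m + 2 + j).choose (2 * m + 3) * (2 * m + 3) =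
    (3 * m + 2 + j).choose (2 * m + 2) * (m + j) := h2
  calc (3 * m + 2 + j).choose (2 * m + 1) * ((m + 1 + j) * (m + j))
      = ((3 * m + 2 + j).choose (2 * m + 1) * (m + 1 + j)) * (m + j) := by ring
    _ = ((3 * m + 2 + j).choose (2 * m + 2) * (2 * m + 2)) * (m + j) := by rw [h1']
    _ = ((3 * m + 2 + j).choose (2 * m + 2) * (m + j)) * (2 * m + 2) := by ring
    _ = _ := by rw [← h2']; ring

/-- `N ∣ (2j-1)(2j-3) C(3m+2+j, 2m+1)` -/
lemma dvd_Y (m j : ℕ) : ((2 * m + 3 : ℕ) : ℤ) ∣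
    (2 * (j : ℤ) - 1) * (2 * j - 3) * ((3 * m + 2 + j).choose (2 * m + 1) : ℤ) := by
  have h := ch_two m j
  have h' := congrArg (Nat.cast : ℕ → ℤ) h
  push_cast at h'
  push_cast
  generalize ((3 * m + 2 + j).choose (2 * m + 1) : ℤ) = Y at *
  generalize ((3 * m + 2 + j).choose (2 * m + 3) : ℤ) = Z at *
  refine ⟨4 * (2 * m + 2) * Z - (2 * (2 * j) + 2 * m + 3 - 4) * Y, ?_⟩
  linear_combination 4 * h'

lemma dvd_three (m j : ℕ) : ((2 * m + 3 : ℕ) : ℤ) ∣ 3 * (t m j : ℤ) := by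
  have hY := dvd_Y m j
  unfold t
  push_cast at hY ⊢
  generalize ((3 * m + 2 + j).choose (2 * m + 1) : ℤ) = Y at *
  -- the multiples `(2j-1)(2j-3) t`
  have h1 : (2 * (m : ℤ) + 3) ∣ (2 * (j : ℤ) - 1) * (2 * j - 3) * (Nat.centralBinom j * Y) := by
    have := hY.mul_left (Nat.centralBinom j : ℤ)
    have e : (2 * (j : ℤ) - 1) * (2 * j - 3) * (Nat.centralBinom j * Y) =
      (Nat.centralBinom j : ℤ) * ((2 * (j : ℤ) - 1) * (2 * j - 3) * Y) := by ring
    rw [e]; exact this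
  -- `N ∣ j t`
  have h2 : (2 * (m : ℤ) + 3) ∣ (j : ℤ) * (Nat.centralBinom j * Y) := by
    rcases Nat.eq_zero_or_pos j with h | h
    · subst h; simp
    · obtain ⟨i, rfl⟩ : ∃ i, j = i + 1 := ⟨j - 1, by omega⟩
      have hc := Nat.succ_mul_centralBinom_succ i
      have hc' : ((i : ℤ) + 1) * (Nat.centralBinom (i + 1) : ℤ) = 2 * (2 * i + 1) * (Nat.centralBinom i : ℤ) := by
        exact_mod_cast hc
      -- (2j-3) j t
      have h3 : (2 * (m : ℤ) + 3) ∣ (2 * (i : ℤ) - 1) * (((i : ℤ) + 1) * (Nat.centralBinom (i + 1) * Y)) := by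
        have := hY.mul_left (2 * (Nat.centralBinom i : ℤ))
        have e : (2 * (i : ℤ) - 1) * (((i : ℤ) + 1) * (Nat.centralBinom (i + 1) * Y)) =
          2 * (Nat.centralBinom i : ℤ) * ((2 * ((i + 1 : ℕ) : ℤ) - 1) * (2 * ((i + 1 : ℕ) : ℤ) - 3) * Y) := by
          push_cast
          linear_combination (2 * (i : ℤ) - 1) * Y * hc'
        rw [e]; exact this
      -- j (j-1) t
      have h4 : (2 * (m : ℤ) + 3) ∣ (i : ℤ) * (((i : ℤ) + 1) * (Nat.centralBinom (i + 1) * Y)) := by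
        rcases Nat.eq_zero_or_pos i with h' | h'
        · subst h'; simp
        · obtain ⟨l, rfl⟩ : ∃ l, i = l + 1 := ⟨i - 1, by omega⟩
          have hd := Nat.succ_mul_centralBinom_succ l
          have hd' : ((l : ℤ) + 1) * (Nat.centralBinom (l + 1) : ℤ) = 2 * (2 * l + 1) * (Nat.centralBinom l : ℤ) := by
            exact_mod_cast hd
          have := hY.mul_left (4 * (Nat.centralBinom l : ℤ))
          push_cast at this hc' ⊢
          have e : ((l : ℤ) + 1) * (((l : ℤ) + 1 + 1) * (Nat.centralBinom (l + 1 + 1) * Y)) =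
            4 * (Nat.centralBinom l : ℤ) * ((2 * ((l : ℤ) + 1 + 1) - 1) * (2 * ((l : ℤ) + 1 + 1) - 3) * Y) := by
            linear_combination ((l : ℤ) + 1) * Y * hc' + 2 * (2 * (l : ℤ) + 3) * Y * hd'
          rw [e]; exact this
      have h5 := dvd_sub (h4.mul_left 2) h3
      push_cast
      have e : 2 * ((i : ℤ) * (((i : ℤ) + 1) * (Nat.centralBinom (i + 1) * Y))) -
        (2 * (i : ℤ) - 1) * (((i : ℤ) + 1) * (Nat.centralBinom (i + 1) * Y)) =
        ((i : ℤ) + 1) * (Nat.centralBinom (i + 1) * Y) := by ring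
      rw [e] at h5
      exact h5
  have h6 := dvd_sub h1 (h2.mul_left (4 * j - 8))
  have e : (2 * (j : ℤ) - 1) * (2 * j - 3) * (Nat.centralBinom j * Y) - (4 * j - 8) * (j * (Nat.centralBinom j * Y)) =
    3 * (Nat.centralBinom j * Y) := by ring
  rw [e] at h6
  exact h6

lemma dvd_three_nat (m j : ℕ) : (2 * m + 3) ∣ 3 * t m j := by
  have h := dvd_three m j
  exact_mod_cast h

lemma dvd_three_U (m : ℕ) : (2 * m + 3) ∣ 3 * U m := by
  unfold U
  rw [mul_sum]
  apply dvd_sum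
  intro j _
  rw [← mul_assoc]
  exact (dvd_three_nat m j).mul_right _

lemma even_U (m : ℕ) : 2 ∣ U m := by
  unfold U
  apply dvd_sum
  intro j _
  apply Dvd.dvd.mul_right
  unfold t
  rcases Nat.eq_zero_or_pos j with h | h
  · subst h
    apply Dvd.dvd.mul_left
    have h1 := Nat.choose_succ_right_eq (3 * m + 2) m
    have e1 : 3 * m + 2 - m = 2 * (m + 1) := by omega
    rw [e1] at h1
    have h2 : (3 * m + 2).choose (m + 1) = 2 * (3 * m + 2).choose m := by
      have : (m + 1) * (3 * m + 2).choose (m + 1) = (m + 1) * (2 * (3 * m + 2).choose m) := by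
        linarith
      exact Nat.eq_of_mul_eq_mul_left (Nat.succ_pos m) this
    have h3 : (3 * m + 2 + 0).choose (2 * m + 1) = (3 * m + 2).choose (m + 1) :=
      Nat.choose_symm_of_eq_add (by omega)
    rw [h3, h2]
    exact Dvd.intro _ rfl
  · apply Dvd.dvd.mul_right
    exact Nat.two_dvd_centralBinom_of_one_le h

lemma dvd_U_iff (m : ℕ) (h3 : 3 ∣ 2 * m + 3) : (2 * m + 3) ∣ U m ↔ (2 * m + 3) ∣ t m m := by
  unfold U
  rw [sum_range_succ]
  have e : m - m = 0 := by omega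
  rw [e, pow_zero, mul_one]
  apply Nat.dvd_add_right
  apply dvd_sum
  intro j hj
  have hj' : j < m := mem_range.mp hj
  obtain ⟨i, hi⟩ : ∃ i, m - j = i + 1 := ⟨m - j - 1, by omega⟩
  rw [hi, pow_succ]
  have := (dvd_three_nat m j).mul_right (3 ^ i)
  have e : t m j * (3 ^ i * 3) = 3 * t m j * 3 ^ i := by ring
  rw [e]
  exact this

/-! ## the `3`-adic valuation of the last term -/

/-- the set of carries when `x` is doubled in base `3` -/
def carries (b x : ℕ) : Finset ℕ := (Finset.Ico 1 b).filter (fun i => 3 ^ i ≤ x % 3 ^ i + x % 3 ^ i)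

lemma val_cb (b x : ℕ) (hb : Nat.log 3 (x + x) < b) :
    padicValNat 3 (Nat.centralBinom x) = (carries b x).card := by
  have : Fact (Nat.Prime 3) := ⟨Nat.prime_three⟩
  rw [Nat.centralBinom_eq_two_mul_choose]
  have h := padicValNat_choose' (p := 3) (n := x) (k := x) hb
  have e : 2 * x = x + x := by ring
  rw [e, h]
  rfl

lemma t_diag (m : ℕ) : t m m = Nat.centralBinom m * Nat.centralBinom (2 * m + 1) := by
  unfold t
  rw [Nat.centralBinom_eq_two_mul_choose (2 * m + 1)]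
  have e : 3 * m + 2 + m = 2 * (2 * m + 1) := by ring
  rw [e]

lemma val_t (b m : ℕ) (hb : Nat.log 3 (4 * m + 2) < b) :
    padicValNat 3 (t m m) = (carries b m).card + (carries b (2 * m + 1)).card := by
  have : Fact (Nat.Prime 3) := ⟨Nat.prime_three⟩
  rw [t_diag, padicValNat.mul (Nat.centralBinom_pos m).ne' (Nat.centralBinom_pos _).ne']
  rw [val_cb b m, val_cb b (2 * m + 1)]
  · have e : 2 * m + 1 + (2 * m + 1) = 4 * m + 2 := by ring
    rw [e]; exact hb
  · exact lt_of_le_of_lt (Nat.log_mono_right (by omega)) hb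

lemma dvd_iff (a m : ℕ) : 3 ^ a ∣ t m m ↔ a ≤ padicValNat 3 (t m m) := by
  have : Fact (Nat.Prime 3) := ⟨Nat.prime_three⟩
  apply padicValNat_dvd_iff_le
  rw [t_diag]
  exact mul_ne_zero (Nat.centralBinom_pos m).ne' (Nat.centralBinom_pos _).ne'

/-- the power of three case -/
lemma pow_case (a m : ℕ) (ha : 1 ≤ a) (h : 2 * m + 3 = 3 ^ a) : ¬ 3 ^ a ∣ t m m := by
  rw [dvd_iff, val_t (Nat.log 3 (4 * m + 2) + 1) m (by omega)]
  set b := Nat.log 3 (4 * m + 2) + 1
  have h1 : (carries b m) = ∅ := by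
    apply Finset.filter_eq_empty_iff.mpr
    intro i hi hc
    have hi1 : 1 ≤ i := (Finset.mem_Ico.mp hi).1
    have hle : m % 3 ^ i ≤ m := Nat.mod_le _ _
    have hia : i ≤ a := by
      by_contra hcon
      have : 3 ^ a ≤ 3 ^ i := Nat.pow_le_pow_right (by norm_num) (by omega)
      omega
    obtain ⟨c, hcc⟩ := Nat.pow_dvd_pow 3 hia
    have hmod := Nat.div_add_mod m (3 ^ i)
    have hlt : m % 3 ^ i < 3 ^ i := Nat.mod_lt _ (by positivity)
    have h3i : 3 ≤ 3 ^ i := by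
      calc 3 = 3 ^ 1 := by norm_num
        _ ≤ 3 ^ i := Nat.pow_le_pow_right (by norm_num) hi1
    have hodd : Odd (3 ^ i) := Odd.pow (by decide)
    -- 3^i divides 2 (m % 3^i) + 3
    have hd : 3 ^ i ∣ 2 * (m % 3 ^ i) + 3 := by
      have h5 : 2 * (m % 3 ^ i) + 3 + 3 ^ i * (2 * (m / 3 ^ i)) = 3 ^ i * c := by
        rw [← hcc, ← h]
        nlinarith [hmod]
      have h6 : 3 ^ i ∣ 2 * (m % 3 ^ i) + 3 + 3 ^ i * (2 * (m / 3 ^ i)) := by
        rw [h5]; exact Dvd.intro _ rfl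
      exact (Nat.dvd_add_left (Dvd.intro _ rfl)).mp h6
    obtain ⟨e, he⟩ := hd
    generalize 3 ^ i = q at *
    generalize m % q = r at *
    have he1 : e = 2 := by
      have hlo : q * 1 < q * e := by omega
      have hhi : q * e < q * 3 := by omega
      have h7 : 1 < e := Nat.lt_of_mul_lt_mul_left hlo
      have h8 : e < 3 := Nat.lt_of_mul_lt_mul_left hhi
      omega
    subst he1
    omega
  have h2 : (carries b (2 * m + 1)) ⊆ Finset.Icc 2 a := by
    intro i hi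
    rw [carries, Finset.mem_filter] at hi
    obtain ⟨hi, hc⟩ := hi
    have hi1 : 1 ≤ i := (Finset.mem_Ico.mp hi).1
    have hle : (2 * m + 1) % 3 ^ i ≤ 2 * m + 1 := Nat.mod_le _ _
    rw [Finset.mem_Icc]
    constructor
    · by_contra hcon
      have : i = 1 := by omega
      subst this
      obtain ⟨c, hcc⟩ : 3 ∣ 3 ^ a := dvd_pow_self 3 (by omega)
      omega
    · by_contra hcon
      have h4 : 3 ^ (a + 1) ≤ 3 ^ i := Nat.pow_le_pow_right (by norm_num) (by omega)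
      rw [pow_succ] at h4
      omega
  have h3 := Finset.card_le_card h2
  rw [h1]
  simp only [Finset.card_empty, Nat.card_Icc] at h3 ⊢
  omega

/-- the other case -/
lemma other_case (a q m : ℕ) (ha : 1 ≤ a) (h : 2 * m + 3 = 3 ^ a * q) (hq : ¬ 3 ∣ q) (hq1 : q ≠ 1) :
    3 ^ a ∣ t m m := by
  rw [dvd_iff, val_t (Nat.log 3 (4 * m + 2) + 1) m (by omega)]
  set b := Nat.log 3 (4 * m + 2) + 1 with hbdef
  -- any index with `3 ^ i ≤ 4 m + 2` is below `b`
  have hb : ∀ i, 3 ^ i ≤ 4 * m + 2 → i < b := by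
    intro i hi
    have := Nat.le_log_of_pow_le (by norm_num) hi
    omega
  obtain ⟨r, hr⟩ : ∃ r, q = 2 * r + 1 := by
    have hodd : Odd (3 ^ a * q) := ⟨m + 1, by omega⟩
    have := (Nat.odd_mul.mp hodd).2
    obtain ⟨r, hr⟩ := this
    exact ⟨r, hr⟩
  have hr0 : 1 ≤ r := by omega
  have h3a : 3 ≤ 3 ^ a := by
    calc 3 = 3 ^ 1 := by norm_num
      _ ≤ 3 ^ a := Nat.pow_le_pow_right (by norm_num) ha
  have hodda : Odd (3 ^ a) := Odd.pow (by decide)
  obtain ⟨s, hs⟩ := hodda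
  -- `m = 3 ^ a r + (3 ^ a - 3) / 2`
  have hm : m = 3 ^ a * r + (s - 1) := by
    rw [hr, Nat.mul_add, Nat.mul_one, ← Nat.mul_assoc, Nat.mul_comm (3 ^ a) 2, Nat.mul_assoc] at h
    omega
  -- carries from `2` to `a`
  have hsub : Finset.Icc 2 a ⊆ (carries b (2 * m + 1)) := by
    intro i hi
    obtain ⟨hi2, hia⟩ := Finset.mem_Icc.mp hi
    have h9 : 9 ≤ 3 ^ i := by
      calc 9 = 3 ^ 2 := by norm_num
        _ ≤ 3 ^ i := Nat.pow_le_pow_right (by norm_num) hi2
    have hmod : (2 * m + 1) % 3 ^ i = 3 ^ i - 2 := by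
      obtain ⟨c, hc⟩ := Nat.pow_dvd_pow 3 hia
      have h5 : 2 * m + 1 = 3 ^ i * (c * q - 1) + (3 ^ i - 2) := by
        have h6 : 2 * m + 3 = 3 ^ i * (c * q) := by rw [h, hc]; ring
        have h7 : 1 ≤ c * q := by
          rcases Nat.eq_zero_or_pos (c * q) with h8 | h8
          · rw [h8] at h6; omega
          · exact h8
        obtain ⟨d, hd⟩ : ∃ d, c * q = d + 1 := ⟨c * q - 1, by omega⟩
        rw [hd] at h6 ⊢
        rw [Nat.mul_add, Nat.mul_one] at h6
        have : d + 1 - 1 = d := by omega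
        rw [this]
        omega
      rw [h5, Nat.mul_add_mod, Nat.mod_eq_of_lt (by omega)]
    rw [carries, Finset.mem_filter, Finset.mem_Ico]
    refine ⟨⟨by omega, ?_⟩, ?_⟩
    · apply hb
      have hle : 3 ^ i ≤ 3 ^ a := Nat.pow_le_pow_right (by norm_num) hia
      have : 3 ^ a * 1 ≤ 3 ^ a * r := Nat.mul_le_mul_left _ hr0
      omega
    · rw [hmod]; omega
  -- an additional carry
  by_cases hcar : ∃ i, 1 ≤ i ∧ 3 ^ i ≤ r % 3 ^ i + r % 3 ^ i
  · obtain ⟨i, hi1, hi⟩ := hcar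
    have hmem : a + i ∈ carries b m := by
      have hmod : m % 3 ^ (a + i) = 3 ^ a * (r % 3 ^ i) + (s - 1) := by
        have hdm := Nat.div_add_mod r (3 ^ i)
        have hlt : r % 3 ^ i < 3 ^ i := Nat.mod_lt _ (by positivity)
        have h5 : m = 3 ^ (a + i) * (r / 3 ^ i) + (3 ^ a * (r % 3 ^ i) + (s - 1)) := by
          rw [hm]
          conv_lhs => rw [← hdm]
          rw [pow_add]; ring
        have h6 : 3 ^ a * (r % 3 ^ i) + (s - 1) < 3 ^ (a + i) := by
          rw [pow_add]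
          have : 3 ^ a * (r % 3 ^ i + 1) ≤ 3 ^ a * 3 ^ i := Nat.mul_le_mul_left _ hlt
          rw [Nat.mul_add, Nat.mul_one] at this
          omega
        conv_lhs => rw [h5]
        rw [Nat.mul_add_mod, Nat.mod_eq_of_lt h6]
      have hge : 3 ^ (a + i) ≤ m % 3 ^ (a + i) + m % 3 ^ (a + i) := by
        rw [hmod, pow_add]
        have : 3 ^ a * 3 ^ i ≤ 3 ^ a * (r % 3 ^ i + r % 3 ^ i) := Nat.mul_le_mul_left _ hi
        rw [Nat.mul_add] at this
        omega
      rw [carries, Finset.mem_filter, Finset.mem_Ico]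
      refine ⟨⟨by omega, ?_⟩, hge⟩
      apply hb
      have : m % 3 ^ (a + i) ≤ m := Nat.mod_le _ _
      omega
    have h1 := Finset.card_le_card hsub
    have h2 : 0 < (carries b m).card := Finset.card_pos.mpr ⟨_, hmem⟩
    rw [Nat.card_Icc] at h1
    omega
  · have hno : ∀ i, 1 ≤ i → r % 3 ^ i + r % 3 ^ i < 3 ^ i := by
      intro i hi
      by_contra hcon
      exact hcar ⟨i, hi, by omega⟩
    -- the number of digits of `r`
    set i := Nat.log 3 r + 1 with hidef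
    have hlo : 3 ^ (i - 1) ≤ r := by
      have e : i - 1 = Nat.log 3 r := by omega
      rw [e]
      exact Nat.pow_log_le_self 3 (by omega)
    have hhi : r < 3 ^ i := Nat.lt_pow_succ_log_self (by norm_num) r
    have h2r := hno i (by omega)
    rw [Nat.mod_eq_of_lt hhi] at h2r
    obtain ⟨l, hl⟩ : ∃ l, i = l + 1 := ⟨i - 1, by omega⟩
    have e1 : i - 1 = l := by omega
    rw [e1] at hlo
    have e2 : 3 ^ i = 3 * 3 ^ l := by rw [hl, pow_succ]; ring
    have hqne : q ≠ 3 ^ i := by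
      intro hcon
      apply hq
      rw [hcon]
      exact dvd_pow_self 3 (by omega)
    have hqlt : q < 3 ^ i := by omega
    have hmem : a + i ∈ carries b (2 * m + 1) := by
      have hlt : 2 * m + 1 < 3 ^ (a + i) := by
        rw [pow_add]
        have : 3 ^ a * q ≤ 3 ^ a * 3 ^ i := Nat.mul_le_mul_left _ hqlt.le
        omega
      have hge : 3 ^ (a + i) ≤ 2 * m + 1 + (2 * m + 1) := by
        rw [pow_add]
        have h5 : 3 ^ i + 3 ≤ q + q := by
          have : 1 ≤ 3 ^ l := Nat.one_le_pow _ _ (by norm_num)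
          omega
        have h6 : 3 ^ a * (3 ^ i + 3) ≤ 3 ^ a * (q + q) := Nat.mul_le_mul_left _ h5
        rw [Nat.mul_add, Nat.mul_add] at h6
        omega
      rw [carries, Finset.mem_filter, Finset.mem_Ico]
      refine ⟨⟨by omega, ?_⟩, ?_⟩
      · apply hb
        omega
      · rw [Nat.mod_eq_of_lt hlt]
        exact hge
    have hnot : a + i ∉ Finset.Icc 2 a := by
      rw [Finset.mem_Icc]; omega
    have h1 := Finset.card_le_card (Finset.insert_subset hmem hsub)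
    rw [Finset.card_insert_of_notMem hnot, Nat.card_Icc] at h1
    omega

/-! ## the result -/

lemma final_aux (m : ℕ) (h : (2 * m + 3) ∣ U m) : ∃ z : ℤ, a (m + 1) = (z : ℚ) := by
  have hcop : Nat.Coprime 2 (2 * m + 3) := by
    rw [Nat.coprime_two_left]; exact ⟨m + 1, by ring⟩
  obtain ⟨w, hw⟩ := hcop.mul_dvd_of_dvd_of_dvd (even_U m) h
  refine ⟨w, ?_⟩
  rw [a_eq, hw]
  have q4 : (2 : ℚ) * m + 3 ≠ 0 := by positivity
  push_cast
  field_simp

/-- **Full answer to Q1.** For every positive integer `n`: if `2n+1` is not a power of `3`, then `a_n`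
is an integer; if `2n+1` is a power of `3`, then `3 a_n` is an integer not divisible by `3`. -/
theorem result (n : ℕ) (hn : 1 ≤ n) :
    ((∀ k : ℕ, 2 * n + 1 ≠ 3 ^ k) → ∃ z : ℤ, a n = (z : ℚ)) ∧
    ((∃ k : ℕ, 2 * n + 1 = 3 ^ k) → ∃ z : ℤ, 3 * a n = (z : ℚ) ∧ ¬ (3 : ℤ) ∣ z) := by
  obtain ⟨m, rfl⟩ : ∃ m, n = m + 1 := ⟨n - 1, by omega⟩
  have eN : 2 * (m + 1) + 1 = 2 * m + 3 := by ring
  rw [eN]
  constructor
  · intro hpow
    apply final_aux
    by_cases h3 : 3 ∣ 2 * m + 3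
    · rw [dvd_U_iff m h3]
      obtain ⟨a, q, hq, hN⟩ := Nat.exists_eq_pow_mul_and_not_dvd (n := 2 * m + 3) (by omega) 3 (by norm_num)
      have ha : 1 ≤ a := by
        rcases Nat.eq_zero_or_pos a with h | h
        · subst h
          rw [pow_zero, one_mul] at hN
          rw [hN] at h3
          exact absurd h3 hq
        · exact h
      have hq1 : q ≠ 1 := by
        intro h
        subst h
        rw [mul_one] at hN
        exact hpow a hN
      have h1 := other_case a q m ha hN hq hq1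
      have h2 : q ∣ t m m := by
        have h4 := dvd_three_nat m m
        have h5 : q ∣ 3 * t m m := (Dvd.intro_left (3 ^ a) hN.symm).trans h4
        have hc : Nat.Coprime q 3 := ((Nat.Prime.coprime_iff_not_dvd Nat.prime_three).mpr hq).symm
        exact hc.dvd_of_dvd_mul_left h5
      rw [hN]
      have hc : Nat.Coprime (3 ^ a) q := ((Nat.Prime.coprime_iff_not_dvd Nat.prime_three).mpr hq).pow_left a
      exact hc.mul_dvd_of_dvd_of_dvd h1 h2
    · have hc : Nat.Coprime (2 * m + 3) 3 := ((Nat.Prime.coprime_iff_not_dvd Nat.prime_three).mpr h3).symm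
      exact hc.dvd_of_dvd_mul_left (dvd_three_U m)
  · rintro ⟨k, hk⟩
    have hk1 : 1 ≤ k := by
      rcases Nat.eq_zero_or_pos k with h | h
      · subst h; omega
      · exact h
    have h3 : 3 ∣ 2 * m + 3 := by
      rw [hk]; exact dvd_pow_self 3 (by omega)
    have hcop : Nat.Coprime 2 (2 * m + 3) := by
      rw [Nat.coprime_two_left]; exact ⟨m + 1, by ring⟩
    have he : 2 ∣ 3 * U m := (even_U m).mul_left 3
    obtain ⟨w, hw⟩ := hcop.mul_dvd_of_dvd_of_dvd he (dvd_three_U m)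
    refine ⟨w, ?_, ?_⟩
    · rw [a_eq]
      have q4 : (2 : ℚ) * m + 3 ≠ 0 := by positivity
      have hw' : 3 * (U m : ℚ) = 2 * (2 * m + 3) * w := by exact_mod_cast hw
      rw [← mul_div_assoc, hw']
      push_cast
      field_simp
    · intro hd
      have hd' : 3 ∣ w := by exact_mod_cast hd
      obtain ⟨y, hy⟩ := hd'
      have h4 : U m = (2 * m + 3) * (2 * y) := by
        rw [hy] at hw
        have : 3 * U m = 3 * ((2 * m + 3) * (2 * y)) := by rw [hw]; ring
        exact Nat.eq_of_mul_eq_mul_left (by norm_num) this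
      have h5 : (2 * m + 3) ∣ U m := Dvd.intro _ h4.symm
      rw [dvd_U_iff m h3, hk] at h5
      exact pow_case k m hk1 hk h5

end Pool.Agent.Results.MP_1a5975_nt.Integrality
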